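import Mathlib

/-!
# Project C3 (helper82): at least `X ^ (2/3 - ε)` imaginary quadratic fields of `3`-rank `≥ 2`

See `Pool/Agent/H82/C3/NOTES.txt` for the paper proof. Every part `S_XXX` is proved in its own file
as `theorem t_XXX : S_XXX` (or from the parts it names).
-/

set_option autoImplicit false

namespace Pool.Agent.H82.C3

open Finset

/-! ### The family -/

/-- `p` -/
def pp (a b : ℤ) : ℤ := a ^ 2 + a * b + b ^ 2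
/-- `m₁` -/
def mm (a b x y : ℤ) : ℤ := a * x - b * y
/-- `t = m₂ - m₁` -/
def tt (a b x y : ℤ) : ℤ := (b - a) * x + (a + 2 * b) * y
/-- `n₁`; also `n₂ = n₁ + 2 t p` -/
def nn (a b x y : ℤ) : ℤ := x ^ 2 + x * y + y ^ 2 - tt a b x y * pp a b
def DD (m n : ℤ) : ℤ := 4 * m ^ 3 - n ^ 2

/-- the index set -/
def dat (T : ℕ) : Finset (ℕ × ℕ × ℕ × ℕ) :=
  range T ×ˢ range T ×ˢ range (T ^ 3) ×ˢ range (T ^ 3)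

def ea (W T i : ℕ) : ℤ := 200 * W * T + 1 + 2 * W * i
def eb (W T j : ℕ) : ℤ := 204 * W * T + W + 2 * W * j
def ex (W T k : ℕ) : ℤ := 16000000 * W ^ 3 * T ^ 3 + W + 2 * W * k
def ey (W l : ℕ) : ℤ := 2 + 2 * W * l

def pD (W T : ℕ) (z : ℕ × ℕ × ℕ × ℕ) : ℤ := pp (ea W T z.1) (eb W T z.2.1)
def mD (W T : ℕ) (z : ℕ × ℕ × ℕ × ℕ) : ℤ :=
  mm (ea W T z.1) (eb W T z.2.1) (ex W T z.2.2.1) (ey W z.2.2.2)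
def tD (W T : ℕ) (z : ℕ × ℕ × ℕ × ℕ) : ℤ :=
  tt (ea W T z.1) (eb W T z.2.1) (ex W T z.2.2.1) (ey W z.2.2.2)
def nD (W T : ℕ) (z : ℕ × ℕ × ℕ × ℕ) : ℤ :=
  nn (ea W T z.1) (eb W T z.2.1) (ex W T z.2.2.1) (ey W z.2.2.2)
def DV (W T : ℕ) (z : ℕ × ℕ × ℕ × ℕ) : ℤ := DD (mD W T z) (nD W T z)

/-- BOX: sizes. With `u = 200 W T` one has `a/u ∈ [1, 1.01]`, `b/u ∈ [1.02, 1.03]`,
`x/u³ ∈ [2, 2.01]`, `y/u³ ∈ [0, 0.01]`. -/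
def S_BOX : Prop :=
  ∀ W T : ℕ, 1 ≤ W → 1 ≤ T → ∀ z ∈ dat T, ∀ u : ℤ, u = 200 * W * T →
    (3 * u ^ 2 ≤ pD W T z ∧ 10 * pD W T z ≤ 32 * u ^ 2) ∧
    (19 * u ^ 4 ≤ 10 * mD W T z ∧ 10 * mD W T z ≤ 21 * u ^ 4) ∧
    (0 < tD W T z ∧ 10 * tD W T z ≤ u ^ 4) ∧
    (3 * u ^ 6 ≤ nD W T z ∧ 10 * nD W T z ≤ 41 * u ^ 6) ∧
    (15 * u ^ 12 ≤ DV W T z ∧ DV W T z ≤ 20 * u ^ 12) ∧
    |3 * mD W T z + 2 * tD W T z - pD W T z ^ 2| ≤ 4 * u ^ 4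

/-- MOD: congruences. Modulo the odd `W`: `a = 1, b = 0, x = 0, y = 2`, so `D = -4`; modulo `2`:
`a, b, x` odd, `y` even, `n₁` odd. -/
def S_MOD : Prop :=
  ∀ W T : ℕ, Odd W → ∀ z : ℕ × ℕ × ℕ × ℕ, DV W T z % 4 = 3 ∧
    ∀ q : ℕ, q.Prime → q ∣ W → ¬ (q : ℤ) ∣ DV W T z

/-! ### Counting -/

/-- REP: representations by `X² + k Y²`. Proof: divide by the largest `h` with `h² ∣ gcd(k,N)`
(then `h ∣ X`); split according to `gcd(X,Y)` (its square divides `N`); for coprime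
representations fix one, `(X₀,Y₀)`: `(X,Y) ↦ gcd(X Y₀ - Y X₀, N)` is at most `C`-to-one. -/
def S_REP : Prop :=
  ∀ ε : ℝ, 0 < ε → ∃ C : ℝ, 0 < C ∧ ∀ k N : ℕ, 1 ≤ k → 1 ≤ N → ∀ S : Finset (ℤ × ℤ),
    (∀ z ∈ S, z.1 ^ 2 + k * z.2 ^ 2 = N) → (S.card : ℝ) ≤ C * (N : ℝ) ^ ε

/-- DEG: from REP and BOX. For two data with the same `(m,n)` put `U = 3 m + 2 t - p²`, so
`U² = p⁴ - 6 m p² + 4 n p - 3 m²`; with `S = m - p p'`: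
`p U'² + 3 (p - p') S² = p' U² - p p' (p - p')³`. If `p > p'`: `(p, p', U)` leaves `T^ε` choices
for `(U', S)`. Given `p, m, U` there are `T^ε` choices of `a, b` (`4 p = (2a+b)² + 3 b²`) and then
one of `x, y`. -/
def S_DEG : Prop :=
  ∀ W : ℕ, 1 ≤ W → ∀ ε : ℝ, 0 < ε → ∃ C : ℝ, 0 < C ∧ ∀ T : ℕ, 1 ≤ T →
    (((dat T ×ˢ dat T).filter (fun z => mD W T z.1 = mD W T z.2 ∧ nD W T z.1 = nD W T z.2)).card : ℝ)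
      ≤ C * (T : ℝ) ^ (8 + ε)

/-- the vertices considered -/
def Vtx (A T : ℕ) (v : ℤ × ℤ) : Prop :=
  1 ≤ v.1 ∧ v.1 ≤ A * (T : ℤ) ^ 4 ∧ 1 ≤ v.2 ∧ v.2 ≤ A * (T : ℤ) ^ 6

/-- PAIR: `n² - n'² = 4 (m³ - m'³)` and the divisor bound -/
def S_PAIR : Prop :=
  ∀ A : ℕ, ∀ ε : ℝ, 0 < ε → ∃ C : ℝ, 0 < C ∧ ∀ T : ℕ, 1 ≤ T → ∀ V : Finset (ℤ × ℤ),
    (∀ v ∈ V, Vtx A T v) →
    (((V ×ˢ V).filter (fun z => DD z.1.1 z.1.2 = DD z.2.1 z.2.2)).card : ℝ) ≤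
      C * (T : ℝ) ^ (8 + ε) + V.card

/-! ### The sieve for the primes up to `T³/1000` -/

/-- SNG: the number of pairs `(x, y)` modulo `q` with `D = ∂D/∂x = 0` is at most `6`.
(`∂n₁/∂x = 2x + y - p(b-a)`.) If `m₁ = 0` then `n₁ = 0`, `(x,y) = (0,0)` or `(pb, pa)`.
If `m₁ ≠ 0` put `τ = n₁/(2 m₁)`: `m₁ = τ²`, `n₁ = 2τ³`, `2x + y = 3aτ + p(b-a) =: P`,
`(a+2b) x = τ² + b P`, `(a+2b) y = a P - 2τ²` and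
`3τ⁴ - 3aτ²P + pP² - p(a+2b)(pP - 3(a+b)τ²) - 2(a+2b)²τ³ = 0`, degree 4 in `τ`. -/
def S_SNG : Prop :=
  ∀ (q : ℕ) [Fact q.Prime], 5 ≤ q → ∀ a b : ZMod q, a ^ 2 + a * b + b ^ 2 ≠ 0 → a + 2 * b ≠ 0 →
    ∀ S : Finset (ZMod q × ZMod q),
    (∀ z ∈ S,
      4 * (a * z.1 - b * z.2) ^ 3 - (z.1 ^ 2 + z.1 * z.2 + z.2 ^ 2 -
        ((b - a) * z.1 + (a + 2 * b) * z.2) * (a ^ 2 + a * b + b ^ 2)) ^ 2 = 0 ∧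
      12 * (a * z.1 - b * z.2) ^ 2 * a - 2 * (z.1 ^ 2 + z.1 * z.2 + z.2 ^ 2 -
        ((b - a) * z.1 + (a + 2 * b) * z.2) * (a ^ 2 + a * b + b ^ 2)) *
        (2 * z.1 + z.2 - (a ^ 2 + a * b + b ^ 2) * (b - a)) = 0) → S.card ≤ 6

/-- LIN: from SNG. For fixed `y`: nonsingular roots modulo `q` (at most `4`) lift uniquely
modulo `q²`. -/
def S_LIN : Prop :=
  ∀ q W : ℕ, q.Prime → 5 ≤ q → ¬ q ∣ 2 * W → ∀ a b x₀ y₀ : ℤ, ¬ (q : ℤ) ∣ pp a b →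
    ¬ (q : ℤ) ∣ a + 2 * b → ∀ N : ℕ,
    ((range N ×ˢ range N).filter (fun z : ℕ × ℕ => (q : ℤ) ^ 2 ∣
      DD (mm a b (x₀ + 2 * W * z.1) (y₀ + 2 * W * z.2))
        (nn a b (x₀ + 2 * W * z.1) (y₀ + 2 * W * z.2)))).card ≤
      4 * N * (N / q ^ 2 + 1) + 6 * (N / q + 1) ^ 2

/-- LIX: `D` has degree `4` and leading coefficient `-1` in `x` -/
def S_LIX : Prop :=
  ∀ q W : ℕ, q.Prime → ¬ q ∣ 2 * W → ∀ a b x₀ y₀ : ℤ, ∀ N : ℕ,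
    ((range N ×ˢ range N).filter (fun z : ℕ × ℕ => (q : ℤ) ∣
      DD (mm a b (x₀ + 2 * W * z.1) (y₀ + 2 * W * z.2))
        (nn a b (x₀ + 2 * W * z.1) (y₀ + 2 * W * z.2)))).card ≤ 4 * N * (N / q + 1)

/-- EXC: for fixed `j` the condition is a polynomial congruence of degree `2` or `1` in `i` -/
def S_EXC : Prop :=
  ∀ q W T : ℕ, q.Prime → ¬ q ∣ 2 * W →
    ((range T ×ˢ range T).filter (fun z : ℕ × ℕ => (q : ℤ) ∣ pp (ea W T z.1) (eb W T z.2) ∨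
      (q : ℤ) ∣ ea W T z.1 + 2 * eb W T z.2)).card ≤ 3 * T * (T / q + 1)

open scoped Classical in
/-- SV1: from LIN, LIX, EXC. `N = T³`; the primes which are not exceptional contribute
`T² Σ_q (4 N² / q² + 4 N + 6.1 N²/q²)`, the exceptional ones `Σ_q 3 T (T/q+1) 4 N (N/q+1)`. -/
def S_SV1 : Prop :=
  ∀ W : ℕ, 1 ≤ W → (∀ q : ℕ, q.Prime → (q ∣ W ↔ 3 ≤ q ∧ q ≤ 1000)) → ∃ T₀ : ℕ, ∀ T : ℕ, T₀ ≤ T →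
    2 * ((dat T).filter (fun z => ∃ q : ℕ, q.Prime ∧ 1000 < q ∧ 1000 * q ≤ T ^ 3 ∧
      (q : ℤ) ^ 2 ∣ DV W T z)).card ≤ T ^ 8

/-! ### The larger primes: vertices -/

/-- BV1: a prime `q > T³/1000` divides `m` and `n` -/
def S_BV1 : Prop :=
  ∀ A : ℕ, ∃ C : ℝ, 0 < C ∧ ∀ T : ℕ, 1 ≤ T → ∀ V : Finset (ℤ × ℤ),
    (∀ v ∈ V, Vtx A T v ∧ ∃ q : ℕ, q.Prime ∧ 1000 < q ∧ T ^ 3 < 1000 * q ∧ (q : ℤ) ∣ v.1 ∧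
      (q : ℤ) ∣ v.2) → (V.card : ℝ) ≤ C * (T : ℝ) ^ 7

/-- BV2: `q² ∣ D`, `T³/1000 < q ≤ T^(4 - 1/100)`; for each `m` and `q` the `n` lie in two residue
classes modulo `q²` -/
def S_BV2 : Prop :=
  ∀ A : ℕ, ∃ C : ℝ, 0 < C ∧ ∀ T : ℕ, 1 ≤ T → ∀ V : Finset (ℤ × ℤ),
    (∀ v ∈ V, Vtx A T v ∧ ∃ q : ℕ, q.Prime ∧ 1000 < q ∧ T ^ 3 < 1000 * q ∧
      (q : ℝ) ≤ (T : ℝ) ^ (4 - 1 / 100 : ℝ) ∧ ¬ (q : ℤ) ∣ v.1 ∧ (q : ℤ) ^ 2 ∣ DD v.1 v.2) →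
    (V.card : ℝ) ≤ C * (T : ℝ) ^ (8 - 1 / 100 : ℝ)

/-- the triples `(r, n, f)` with `r² ≤ d`, `f ≥ 1`, `n² + d f² = 4 r³` -/
def R3 (d : ℕ) : ℕ :=
  ((range (d + 1) ×ˢ range (4 * d ^ 3 + 1) ×ˢ range (4 * d ^ 3 + 1)).filter
    (fun z : ℕ × ℕ × ℕ => z.1 ^ 2 ≤ d ∧ 1 ≤ z.2.2 ∧ z.2.1 ^ 2 + d * z.2.2 ^ 2 = 4 * z.1 ^ 3)).card

/-- R3: for each `r ≤ √Y` and `f ≤ 2 Y^(3/4)` there are at most `d(f²) (2 Y^(3/4)/f + 2)` numbers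
`n ≤ 2 Y^(3/4)` with `f² ∣ 4 r³ - n²` (if `n₀` is one of them, each `n` satisfies `g ∣ n - n₀` and
`f²/g ∣ n + n₀`, `g = gcd(n - n₀, f²)`, and `lcm(g, f²/g) ≥ f`). -/
def S_R3 : Prop :=
  ∀ ε : ℝ, 0 < ε → ∃ C : ℝ, 0 < C ∧ ∀ Y : ℕ, 1 ≤ Y →
    (∑ d ∈ Icc 1 Y, (R3 d : ℝ)) ≤ C * (Y : ℝ) ^ (5 / 4 + ε : ℝ)

open NumberField in
/-- CGA: every class contains an ideal of norm `r ≤ √d` (Minkowski, `2/π < 1`) which contains no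
integers but the multiples of `r`. Proof: take the norm minimal in the class; if all the elements
`x + yω` of the ideal had `g ∣ y`, `g ≥ 2`, then (multiply by `ω`) `g ∣ x` and the ideal divided by
`g` has smaller norm; so it contains some `x + ω` and `ℤ → 𝓞/𝔯` is onto. -/
def S_CGA : Prop :=
  ∀ (K : Type) [Field K] [NumberField K] (d : ℕ), Module.finrank ℚ K = 2 → Squarefree d →
    d % 4 = 3 → 7 ≤ d → discr K = -(d : ℤ) → ∀ c : ClassGroup (𝓞 K),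
    ∃ (I : Ideal (𝓞 K)) (hI : I ∈ nonZeroDivisors (Ideal (𝓞 K))), ClassGroup.mk0 ⟨I, hI⟩ = c ∧
      (Ideal.absNorm I) ^ 2 ≤ d ∧ ∀ k : ℤ, (k : 𝓞 K) ∈ I → (Ideal.absNorm I : ℤ) ∣ k

open NumberField in
/-- CGB: from CGA. Ideals `𝔪` of norm `≤ Y` in the class `c`: with `𝔯` from CGA in the class
`c⁻¹`, `𝔪 𝔯 = (γ)`, `γ = (u + v √-d)/2 ∈ 𝔯`, `u² + d v² ≤ 4 r Y`; for fixed `v` the `u` are
congruent modulo `2 r`. -/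
def S_CGB : Prop :=
  ∀ (K : Type) [Field K] [NumberField K] (d : ℕ), Module.finrank ℚ K = 2 → Squarefree d →
    d % 4 = 3 → 7 ≤ d → discr K = -(d : ℤ) → ∀ (c : ClassGroup (𝓞 K)) (Y : ℕ), 1 ≤ Y →
    ∀ S : Finset (Ideal (𝓞 K)), (∀ I ∈ S, ∃ hI : I ∈ nonZeroDivisors (Ideal (𝓞 K)),
      ClassGroup.mk0 ⟨I, hI⟩ = c ∧ Ideal.absNorm I ≤ Y) →
    (S.card : ℝ) ≤ 10 * ((Y : ℝ) / Real.sqrt d + Real.sqrt Y + 1)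

open NumberField in
/-- CGC: from CGA. For `c³ = 1` take `𝔯 ∈ c` from CGA, `𝔯³ = (β)`, `β = (n + f √-d)/2`; if `f = 0`
then `β` is an integer, `r` a square and `𝔯³ = (√r)³`, `c = 1`; otherwise `(r, |n|, |f|)` is counted
by `R3 d` and determines `𝔯` up to conjugation. -/
def S_CGC : Prop :=
  ∀ (K : Type) [Field K] [NumberField K] (d : ℕ), Module.finrank ℚ K = 2 → Squarefree d →
    d % 4 = 3 → 7 ≤ d → discr K = -(d : ℤ) →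
    Nat.card {c : ClassGroup (𝓞 K) // c ^ 3 = 1} ≤ 1 + 2 * R3 d

open NumberField in
/-- CGD: from CGB and CGC. The pairs `(m, n)`, `gcd(m,n) = 1`, `4 m³ = n² + d f²`, map injectively
to the ideals `𝔪` with `𝔪³ = ((n + f√-d)/2)`, of norm `m`. -/
def S_CGD : Prop :=
  ∀ (K : Type) [Field K] [NumberField K] (d : ℕ), Module.finrank ℚ K = 2 → Squarefree d →
    d % 4 = 3 → 7 ≤ d → discr K = -(d : ℤ) → ∀ Y : ℕ, 1 ≤ Y → ∀ V : Finset (ℤ × ℤ),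
    (∀ v ∈ V, 1 ≤ v.1 ∧ v.1 ≤ Y ∧ 1 ≤ v.2 ∧ IsCoprime v.1 v.2 ∧
      ∃ f : ℕ, 1 ≤ f ∧ DD v.1 v.2 = d * f ^ 2) →
    (V.card : ℝ) ≤ 100 * (1 + R3 d) * ((Y : ℝ) / Real.sqrt d + Real.sqrt Y + 1)

/-- BV3: from REP (`d ≤ T^3.9`: for each `m` and `d` there are `T^ε` pairs `(n,f)`), CGD and R3
(`d > T^3.9`). The field of discriminant `-d` exists by
`Pool.Agent.Y587.CT.t_FLD` (`Pool.Graph.R_pool_sql_team_seeded_1acbe0a2.Y587.CT.FLD`). -/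
def S_BV3 : Prop :=
  ∀ A : ℕ, ∃ C : ℝ, 0 < C ∧ ∀ T : ℕ, 1 ≤ T → ∀ V : Finset (ℤ × ℤ),
    (∀ v ∈ V, Vtx A T v ∧ IsCoprime v.1 v.2 ∧ ∃ d f : ℕ, Squarefree d ∧ d % 4 = 3 ∧ 1 ≤ f ∧
      DD v.1 v.2 = d * f ^ 2 ∧ (d : ℝ) ≤ A * (T : ℝ) ^ (4 + 1 / 50 : ℝ)) →
    (V.card : ℝ) ≤ C * (T : ℝ) ^ (8 - 1 / 20 : ℝ)

/-! ### Assembly -/

/-- CSA: from BOX, MOD, SV1, BV1, BV2, BV3, DEG, PAIR -/
def S_CSA : Prop :=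
  ∀ W : ℕ, 1 ≤ W → (∀ q : ℕ, q.Prime → (q ∣ W ↔ 3 ≤ q ∧ q ≤ 1000)) → ∀ ε : ℝ, 0 < ε →
    ∃ T₀ : ℕ, ∀ T : ℕ, T₀ ≤ T → ∃ S : Finset ℕ,
      (∀ D ∈ S, Squarefree D ∧ D % 4 = 3 ∧ D ≤ 20 * (200 * W * T) ^ 12 ∧
        ∃ m₁ n₁ m₂ n₂ : ℕ, 1 < m₁ ∧ m₁ < m₂ ∧ 4 * m₂ ^ 2 < D ∧ 4 * m₁ ^ 3 = n₁ ^ 2 + D ∧
          4 * m₂ ^ 3 = n₂ ^ 2 + D) ∧
      (T : ℝ) ^ (8 - ε) ≤ S.card

open NumberField in
/-- ALG: two independent classes of order three -/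
def S_ALG : Prop :=
  ∀ (K : Type) [Field K] [NumberField K] (D m₁ n₁ m₂ n₂ : ℕ), Module.finrank ℚ K = 2 →
    Squarefree D → D % 4 = 3 → discr K = -(D : ℤ) → 1 < m₁ → m₁ < m₂ → 4 * m₂ ^ 2 < D →
    4 * m₁ ^ 3 = n₁ ^ 2 + D → 4 * m₂ ^ 3 = n₂ ^ 2 + D →
    ∃ a b : ClassGroup (𝓞 K), a ^ 3 = 1 ∧ b ^ 3 = 1 ∧ a ≠ 1 ∧ b ≠ 1 ∧ a * b ≠ 1 ∧ a ≠ b

end Pool.Agent.H82.C3
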