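import Pool.Agent.H82.CR.A1
import Pool.Agent.H82.C3.Stm
import Pool.Graph.R_seed8.Y159.QS.Quad

set_option autoImplicit false

/-! # C3, part ALG: two independent ideal classes of order three -/

namespace Pool.Agent.H82.C3

open NumberField
open Pool.Agent.H82.CR (ideal_pow_inj exists_el exists_cube not_principal coprime_of_prime)

variable {K : Type*} [Field K] [NumberField K]

lemma norm_cube (h2 : Module.finrank ℚ K = 2) (d : ℕ) (hd : Squarefree d) (s : K)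
    (hs : s ^ 2 = -(d : K)) (x : 𝓞 K) (A B : ℤ) (k : ℕ)
    (hx : (x : K) = ((A : ℚ) / 2 : ℚ) + ((B : ℚ) / 2 : ℚ) * s)
    (hAB : A ^ 2 + d * B ^ 2 = 4 * (k : ℤ) ^ 3) (I : Ideal (𝓞 K)) (hI : Ideal.span {x} = I ^ 3) :
    Ideal.absNorm I = k := by
  have hd1 : 1 ≤ d := Nat.one_le_iff_ne_zero.mpr hd.ne_zero
  have hnx : Ideal.absNorm (Ideal.span {x}) = k ^ 3 := by
    have h3 := (Pool.Agent.Q148.CG.exists_conj h2 d hd1 s hs (x : K) _ _ hx).1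
    have h4 : ((Algebra.norm ℤ x : ℤ) : ℚ) = ((k ^ 3 : ℕ) : ℚ) := by
      rw [Algebra.coe_norm_int, h3]
      have h5 : (A : ℚ) ^ 2 + d * (B : ℚ) ^ 2 = 4 * (k : ℚ) ^ 3 := by exact_mod_cast hAB
      push_cast
      linear_combination (1 / 4) * h5
    have h5 : (Algebra.norm ℤ x : ℤ) = ((k ^ 3 : ℕ) : ℤ) := by exact_mod_cast h4
    rw [Ideal.absNorm_span_singleton, h5, Int.natAbs_natCast]
  have h3 : (Ideal.absNorm I) ^ 3 = k ^ 3 := by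
    rw [← map_pow, ← hI, hnx]
  exact Nat.pow_left_injective (by norm_num : (3 : ℕ) ≠ 0) h3

/-- if the cube of a principal ideal of norm `< d/4` is generated by `x`, then `x` is rational -/
lemma rational_of_principal (h2 : Module.finrank ℚ K = 2) (d : ℕ) (hd : Squarefree d) (hd4 : 4 < d)
    (s : K) (hs : s ^ 2 = -(d : K)) (x : 𝓞 K) (u v : ℚ) (hx : (x : K) = u + v * s)
    (L : Ideal (𝓞 K)) (hL : Ideal.span {x} = L ^ 3) (m : ℕ) (hm : Ideal.absNorm L = m)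
    (hmd : 4 * m < d) (hp : L.IsPrincipal) : v = 0 := by
  have hd1 : 1 ≤ d := Nat.one_le_iff_ne_zero.mpr hd.ne_zero
  obtain ⟨⟨β, hβ⟩⟩ := hp
  have hβ' : L = Ideal.span {β} := hβ
  obtain ⟨r, hr, -⟩ := Pool.Agent.Q148.CG.small_norm h2 d hd s hs β m (by rw [← hβ', hm]) hmd
  rw [hβ', Ideal.span_singleton_pow, Ideal.span_singleton_eq_span_singleton] at hL
  obtain ⟨w, hw⟩ := hL.symm
  have hw1 : Ideal.absNorm (Ideal.span {(w : 𝓞 K)}) = 1 := by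
    rw [Ideal.absNorm_eq_one_iff, Ideal.span_singleton_eq_top]
    exact w.isUnit
  obtain ⟨r', hr', -⟩ := Pool.Agent.Q148.CG.small_norm h2 d hd s hs (w : 𝓞 K) 1 hw1 (by omega)
  by_contra hv
  have h3 : (x : K) = (((r : ℚ) ^ 3 * r' : ℚ) : K) := by
    rw [← hw, hr, hr']
    simp only [map_mul, map_pow, map_intCast]
    push_cast
    rfl
  apply Pool.Agent.Q148.CG.s_not_rat d hd1 s hs (((r : ℚ) ^ 3 * r' - u) / v)
  have hv' : (v : K) ≠ 0 := by exact_mod_cast hv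
  rw [hx] at h3
  push_cast at h3 ⊢
  rw [eq_div_iff hv']
  linear_combination h3

lemma coprime_of_sqfree {D m n : ℕ} (hD : Squarefree D) (h : 4 * m ^ 3 = n ^ 2 + D) :
    IsCoprime (n : ℤ) (m : ℤ) := by
  apply coprime_of_prime
  intro p hp h1 h2
  have h1' : p ∣ n := by exact_mod_cast h1
  have h2' : p ∣ m := by exact_mod_cast h2
  have h3 : p * p ∣ D := by
    have h4 : p * p ∣ n ^ 2 := by rw [sq]; exact mul_dvd_mul h1' h1'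
    have h5 : p * p ∣ n ^ 2 + D := by
      rw [← h]
      have : m ^ 3 = (m * m) * m := by ring
      rw [this]
      exact ((mul_dvd_mul h2' h2').mul_right _).mul_left _
    exact (Nat.dvd_add_right h4).1 h5
  have := hD p h3
  exact hp.one_lt.ne' (Nat.isUnit_iff.1 this)

theorem t_ALG : S_ALG := by
  intro K _ _ D m₁ n₁ m₂ n₂ h2 hD hD3 hdisc hm1 hm12 hm2D hE1 hE2
  obtain ⟨s, -, hs0⟩ := Pool.Agent.Y159.QS.exists_sqrt (K := K) h2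
  have hs : s ^ 2 = -(D : K) := by
    rw [hs0, hdisc]; push_cast; ring
  have hm2 : 1 < m₂ := hm1.trans hm12
  have hD4 : 4 < D := by nlinarith
  have h4m1 : 4 * m₁ < D := by nlinarith
  have h4m2 : 4 * m₂ < D := by nlinarith
  have h4mm : 4 * (m₁ * m₂) < D := by nlinarith
  have N1 : (n₁ : ℤ) ^ 2 + D * (1 : ℤ) ^ 2 = 4 * (m₁ : ℤ) ^ 3 := by
    have : (4 * (m₁ : ℤ) ^ 3 : ℤ) = n₁ ^ 2 + D := by exact_mod_cast hE1
    rw [this]; ring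
  have N2 : (n₂ : ℤ) ^ 2 + D * (1 : ℤ) ^ 2 = 4 * (m₂ : ℤ) ^ 3 := by
    have : (4 * (m₂ : ℤ) ^ 3 : ℤ) = n₂ ^ 2 + D := by exact_mod_cast hE2
    rw [this]; ring
  have hn1 : 0 < n₁ := by
    rcases Nat.eq_zero_or_pos n₁ with h | h
    · subst h; omega
    · exact h
  obtain ⟨x1, y1, hx1, hy1, hxy1, ht1⟩ := exists_el D s hs _ _ _ N1
  obtain ⟨x2, y2, hx2, hy2, hxy2, ht2⟩ := exists_el D s hs _ _ _ N2
  obtain ⟨I1, J1, hI1, hJ1, hIJ1, hc1⟩ := exists_cube x1 y1 _ m₁ hm1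
    (by rw [hxy1]; push_cast; rfl) ht1 (coprime_of_sqfree hD hE1)
  obtain ⟨I2, J2, hI2, hJ2, hIJ2, hc2⟩ := exists_cube x2 y2 _ m₂ hm2
    (by rw [hxy2]; push_cast; rfl) ht2 (coprime_of_sqfree hD hE2)
  have P1 := not_principal h2 D hD s hs x1 y1 _ _ m₁ hm1 hx1 N1 h4m1 I1 J1 hI1 hJ1 hIJ1 hc1
  have P2 := not_principal h2 D hD s hs x2 y2 _ _ m₂ hm2 hx2 N2 h4m2 I2 J2 hI2 hJ2 hIJ2 hc2
  have nI1 := norm_cube h2 D hD s hs x1 _ _ m₁ hx1 N1 I1 hI1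
  have nI2 := norm_cube h2 D hD s hs x2 _ _ m₂ hx2 N2 I2 hI2
  have nJ2 := norm_cube h2 D hD s hs y2 (n₂ : ℤ) (-1) m₂ (by rw [hy2]; push_cast; ring)
    (by rw [← N2]; ring) J2 hJ2
  have P3 : ¬ (I1 * I2).IsPrincipal := by
    intro hp
    have h3 := rational_of_principal h2 D hD hD4 s hs (x1 * x2)
      (((n₁ : ℚ) * n₂ - D) / 4) (((n₁ : ℚ) + n₂) / 4) (by
        rw [show ((x1 * x2 : 𝓞 K) : K) = (x1 : K) * (x2 : K) from rfl, hx1, hx2]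
        push_cast
        linear_combination (1 / 4) * hs) (I1 * I2)
      (by rw [mul_pow, ← hI1, ← hI2, Ideal.span_singleton_mul_span_singleton]) (m₁ * m₂)
      (by rw [map_mul, nI1, nI2]) h4mm hp
    have h4 : (0 : ℚ) < n₁ := by exact_mod_cast hn1
    have h5 : (0 : ℚ) ≤ n₂ := by positivity
    linarith
  have P4 : ¬ (I1 * J2).IsPrincipal := by
    intro hp
    have h3 := rational_of_principal h2 D hD hD4 s hs (x1 * y2)
      (((n₁ : ℚ) * n₂ + D) / 4) (((n₂ : ℚ) - n₁) / 4) (by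
        rw [show ((x1 * y2 : 𝓞 K) : K) = (x1 : K) * (y2 : K) from rfl, hx1, hy2]
        push_cast
        linear_combination (-1 / 4) * hs) (I1 * J2)
      (by rw [mul_pow, ← hI1, ← hJ2, Ideal.span_singleton_mul_span_singleton]) (m₁ * m₂)
      (by rw [map_mul, nI1, nJ2]) h4mm hp
    have h4 : (n₂ : ℚ) = n₁ := by linarith
    have h5 : n₂ = n₁ := by exact_mod_cast h4
    rw [h5] at hE2
    have h6 : m₁ ^ 3 < m₂ ^ 3 := Nat.pow_lt_pow_left hm12 (by norm_num)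
    omega
  -- nonzero
  have hk0 : ∀ k : ℕ, 1 < k → (k : 𝓞 K) ≠ 0 := by
    intro k hk
    have : k ≠ 0 := by omega
    exact_mod_cast this
  have hI0 : ∀ (k : ℕ) (I J : Ideal (𝓞 K)), 1 < k → I * J = Ideal.span {(k : 𝓞 K)} → I ≠ ⊥ ∧ J ≠ ⊥ := by
    intro k I J hk hIJ
    have h0 : Ideal.span {(k : 𝓞 K)} ≠ ⊥ := by
      rw [Ne, Ideal.span_singleton_eq_bot]; exact hk0 k hk
    constructor
    · rintro rfl; rw [Ideal.bot_mul] at hIJ; exact h0 hIJ.symm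
    · rintro rfl; rw [Ideal.mul_bot] at hIJ; exact h0 hIJ.symm
  obtain ⟨i1, j1⟩ := hI0 _ I1 J1 hm1 hIJ1
  obtain ⟨i2, j2⟩ := hI0 _ I2 J2 hm2 hIJ2
  have mz : ∀ I : Ideal (𝓞 K), I ≠ ⊥ → I ∈ nonZeroDivisors (Ideal (𝓞 K)) :=
    fun I hI => mem_nonZeroDivisors_of_ne_zero hI
  have hprin : ∀ (I : Ideal (𝓞 K)) (hI : I ≠ ⊥), ClassGroup.mk0 ⟨I, mz I hI⟩ = 1 ↔ I.IsPrincipal :=
    fun I hI => ClassGroup.mk0_eq_one_iff (mz I hI)
  have hne : ∀ I J : Ideal (𝓞 K), I ≠ ⊥ → J ≠ ⊥ → I * J ≠ ⊥ := by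
    intro I J hI hJ
    exact mul_ne_zero hI hJ
  have hmul : ∀ (I J : Ideal (𝓞 K)) (hI : I ≠ ⊥) (hJ : J ≠ ⊥) (hIJ : I * J ≠ ⊥),
      ClassGroup.mk0 ⟨I, mz I hI⟩ * ClassGroup.mk0 ⟨J, mz J hJ⟩ =
        ClassGroup.mk0 ⟨I * J, mz _ hIJ⟩ := by
    intro I J hI hJ hIJ
    rw [← map_mul]
    rfl
  have hcube : ∀ (I : Ideal (𝓞 K)) (hI : I ≠ ⊥) (x : 𝓞 K), Ideal.span {x} = I ^ 3 →
      (ClassGroup.mk0 ⟨I, mz I hI⟩) ^ 3 = 1 := by
    intro I hI x hx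
    have h3 : I ^ 3 ≠ ⊥ := pow_ne_zero 3 hI
    have h4 : (ClassGroup.mk0 ⟨I, mz I hI⟩) ^ 3 = ClassGroup.mk0 ⟨I ^ 3, mz _ h3⟩ := by
      rw [← map_pow]; rfl
    rw [h4, hprin _ h3, ← hx]
    exact ⟨⟨_, rfl⟩⟩
  set a : ClassGroup (𝓞 K) := ClassGroup.mk0 ⟨I1, mz _ i1⟩ with ha
  set b : ClassGroup (𝓞 K) := ClassGroup.mk0 ⟨I2, mz _ i2⟩ with hb
  refine ⟨a, b, hcube I1 i1 x1 hI1, hcube I2 i2 x2 hI2, ?_, ?_, ?_, ?_⟩
  · rw [ha, Ne, hprin _ i1]; exact P1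
  · rw [hb, Ne, hprin _ i2]; exact P2
  · rw [ha, hb, hmul _ _ i1 i2 (hne _ _ i1 i2), Ne, hprin _ (hne _ _ i1 i2)]; exact P3
  · intro hab
    apply P4
    rw [← hprin _ (hne _ _ i1 j2), ← hmul _ _ i1 j2 (hne _ _ i1 j2)]
    rw [← ha, hab, hb, hmul _ _ i2 j2 (hne _ _ i2 j2), hprin _ (hne _ _ i2 j2), hIJ2]
    exact ⟨⟨_, rfl⟩⟩

end Pool.Agent.H82.C3
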