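import Pool.Agent.H82.C3.Stm
import Pool.Agent.H82.CR.A1

set_option autoImplicit false

/-! # C3, part CSA, 1: Cauchy-Schwarz and squarefreeness -/

namespace Pool.Agent.H82.C3

open Finset

lemma cs_card {α β : Type*} [DecidableEq β] [DecidableEq α] (S : Finset α) (f : α → β) (V : Finset β)
    (hf : ∀ z ∈ S, f z ∈ V) (P : ℕ)
    (hP : ∀ Q : Finset (α × α), (∀ z ∈ Q, z.1 ∈ S ∧ z.2 ∈ S ∧ f z.1 = f z.2) → Q.card ≤ P) :
    S.card ^ 2 ≤ V.card * P := by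
  have h1 : S.card = ∑ v ∈ V, (S.filter (fun z => f z = v)).card :=
    card_eq_sum_card_fiberwise hf
  have h2 : (∑ v ∈ V, (S.filter (fun z => f z = v)).card) ^ 2 ≤
      V.card * ∑ v ∈ V, (S.filter (fun z => f z = v)).card ^ 2 := by
    have := sq_sum_le_card_mul_sum_sq (s := V) (f := fun v => ((S.filter (fun z => f z = v)).card : ℤ))
    exact_mod_cast this
  have h3 : ∑ v ∈ V, (S.filter (fun z => f z = v)).card ^ 2 ≤ P := by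
    refine le_trans ?_ (hP ((S ×ˢ S).filter (fun z => f z.1 = f z.2)) ?_)
    · have hm : ∀ z ∈ (S ×ˢ S).filter (fun z => f z.1 = f z.2), f z.1 ∈ V := by
        intro z hz
        rw [mem_filter, mem_product] at hz
        exact hf _ hz.1.1
      rw [card_eq_sum_card_fiberwise (f := fun z : α × α => f z.1) hm]
      apply sum_le_sum
      intro v _
      rw [sq, ← card_product]
      apply card_le_card
      intro z hz
      simp only [mem_product, mem_filter] at hz ⊢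
      exact ⟨⟨⟨hz.1.1, hz.2.1⟩, by rw [hz.1.2, hz.2.2]⟩, hz.1.2⟩
    · intro z hz
      simp only [mem_product, mem_filter] at hz
      exact ⟨hz.1.1, hz.1.2, hz.2⟩
  rw [h1]
  exact h2.trans (Nat.mul_le_mul_left _ h3)

def B1 (T : ℕ) (D : ℤ) : Prop :=
  ∃ q : ℕ, q.Prime ∧ 1000 < q ∧ 1000 * q ≤ T ^ 3 ∧ (q : ℤ) ^ 2 ∣ D

def P1 (T : ℕ) (v : ℤ × ℤ) : Prop :=
  ∃ q : ℕ, q.Prime ∧ 1000 < q ∧ T ^ 3 < 1000 * q ∧ (q : ℤ) ∣ v.1 ∧ (q : ℤ) ∣ v.2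

def P2 (T : ℕ) (v : ℤ × ℤ) : Prop :=
  ∃ q : ℕ, q.Prime ∧ 1000 < q ∧ T ^ 3 < 1000 * q ∧ (q : ℝ) ≤ (T : ℝ) ^ (4 - 1 / 100 : ℝ) ∧
    ¬ (q : ℤ) ∣ v.1 ∧ (q : ℤ) ^ 2 ∣ DD v.1 v.2

def P3 (A T : ℕ) (v : ℤ × ℤ) : Prop :=
  IsCoprime v.1 v.2 ∧ ∃ d f : ℕ, Squarefree d ∧ d % 4 = 3 ∧ 1 ≤ f ∧
      DD v.1 v.2 = d * f ^ 2 ∧ (d : ℝ) ≤ A * (T : ℝ) ^ (4 + 1 / 50 : ℝ)

/-- a prime whose square divides `D` is larger than `1000` -/
lemma large_of {W : ℕ} {D : ℤ} (hodd : D % 4 = 3)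
    (hW : ∀ q : ℕ, q.Prime → q ∣ W → ¬ (q : ℤ) ∣ D)
    (hWp : ∀ q : ℕ, q.Prime → (q ∣ W ↔ 3 ≤ q ∧ q ≤ 1000)) {q : ℕ} (hq : q.Prime)
    (hqD : (q : ℤ) ^ 2 ∣ D) : 1000 < q := by
  have hqD1 : (q : ℤ) ∣ D := (dvd_pow_self _ (by norm_num)).trans hqD
  have h1 : ¬ q ∣ W := fun h => hW q hq h hqD1
  rw [hWp q hq] at h1
  have h2 : q ≠ 2 := by
    rintro rfl
    have : (2 : ℤ) ∣ D := by exact_mod_cast hqD1
    omega
  have := hq.two_le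
  omega

lemma sqfree_of {W T A : ℕ} {v : ℤ × ℤ} (hT : 1 ≤ T) (hodd : DD v.1 v.2 % 4 = 3)
    (hW : ∀ q : ℕ, q.Prime → q ∣ W → ¬ (q : ℤ) ∣ DD v.1 v.2)
    (hWp : ∀ q : ℕ, q.Prime → (q ∣ W ↔ 3 ≤ q ∧ q ≤ 1000)) (hpos : 0 < DD v.1 v.2)
    (hle : DD v.1 v.2 ≤ A * T ^ 12) (h0 : ¬ B1 T (DD v.1 v.2)) (h1 : ¬ P1 T v) (h2 : ¬ P2 T v)
    (h3 : ¬ P3 A T v) : Squarefree (DD v.1 v.2).toNat := by
  rw [Nat.squarefree_iff_prime_squarefree]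
  intro q hq hqq
  have hqD : (q : ℤ) ^ 2 ∣ DD v.1 v.2 := by
    have h4 : ((q * q : ℕ) : ℤ) ∣ ((DD v.1 v.2).toNat : ℤ) := by exact_mod_cast hqq
    rw [Int.toNat_of_nonneg hpos.le] at h4
    rw [sq]
    exact_mod_cast h4
  have hq1000 := large_of hodd hW hWp hq hqD
  have hq' : Prime (q : ℤ) := Nat.prime_iff_prime_int.1 hq
  by_cases c1 : 1000 * q ≤ T ^ 3
  · exact h0 ⟨q, hq, hq1000, c1, hqD⟩
  push Not at c1
  by_cases c2 : (q : ℤ) ∣ v.1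
  · apply h1
    refine ⟨q, hq, hq1000, c1, c2, ?_⟩
    have h4 : (q : ℤ) ∣ v.2 ^ 2 := by
      have h5 : v.2 ^ 2 = 4 * v.1 ^ 3 - DD v.1 v.2 := by unfold DD; ring
      rw [h5]
      exact dvd_sub ((dvd_pow c2 (by norm_num)).mul_left _)
        ((dvd_pow_self _ (by norm_num)).trans hqD)
    exact hq'.dvd_of_dvd_pow h4
  by_cases c3 : (q : ℝ) ≤ (T : ℝ) ^ (4 - 1 / 100 : ℝ)
  · exact h2 ⟨q, hq, hq1000, c1, c3, c2, hqD⟩
  push Not at c3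
  apply h3
  refine ⟨?_, ?_⟩
  · apply Pool.Agent.H82.CR.coprime_of_prime
    intro l hl hl1 hl2
    have hlD : (l : ℤ) ^ 2 ∣ DD v.1 v.2 := by
      unfold DD
      apply dvd_sub
      · have h5 : (4 * v.1 ^ 3 : ℤ) = v.1 ^ 2 * (4 * v.1) := by ring
        rw [h5]
        exact (pow_dvd_pow_of_dvd hl1 2).mul_right _
      · exact pow_dvd_pow_of_dvd hl2 2
    have hl1000 := large_of hodd hW hWp hl hlD
    by_cases c4 : 1000 * l ≤ T ^ 3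
    · exact h0 ⟨l, hl, hl1000, c4, hlD⟩
    · push Not at c4
      exact h1 ⟨l, hl, hl1000, c4, hl1, hl2⟩
  · obtain ⟨d, f, hdf, hd⟩ := Nat.sq_mul_squarefree (DD v.1 v.2).toNat
    have hDn : ((DD v.1 v.2).toNat : ℤ) = DD v.1 v.2 := Int.toNat_of_nonneg hpos.le
    have hf1 : 1 ≤ f := by
      rcases Nat.eq_zero_or_pos f with h | h
      · subst h
        simp at hdf
        omega
      · exact h
    have hE : DD v.1 v.2 = d * f ^ 2 := by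
      rw [← hDn, ← hdf]; push_cast; ring
    have hfodd : f % 2 = 1 := by
      rcases Nat.mod_two_eq_zero_or_one f with h | h
      · exfalso
        obtain ⟨k, rfl⟩ : ∃ k, f = 2 * k := ⟨f / 2, by omega⟩
        have : DD v.1 v.2 = 4 * (d * k ^ 2) := by rw [hE]; push_cast; ring
        omega
      · exact h
    have hd4 : d % 4 = 3 := by
      obtain ⟨k, rfl⟩ : ∃ k, f = 2 * k + 1 := ⟨f / 2, by omega⟩
      have : DD v.1 v.2 = 4 * (d * k ^ 2 + d * k) + d := by rw [hE]; push_cast; ring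
      omega
    have hqf : q ∣ f := by
      by_contra hqf
      have hc : Nat.Coprime (q ^ 2) (f ^ 2) := Nat.Coprime.pow 2 2 ((Nat.Prime.coprime_iff_not_dvd hq).2 hqf)
      have h5 : q ^ 2 ∣ f ^ 2 * d := by rw [hdf, sq]; exact hqq
      have h6 : q ^ 2 ∣ d := hc.dvd_of_dvd_mul_left h5
      have h7 := hd q (by rw [← sq]; exact h6)
      exact hq.one_lt.ne' (Nat.isUnit_iff.1 h7)
    have hqf' : q ≤ f := Nat.le_of_dvd hf1 hqf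
    refine ⟨d, f, hd, hd4, hf1, hE, ?_⟩
    have hT0 : (0 : ℝ) < T := by exact_mod_cast hT
    have h5 : (T : ℝ) ^ (4 - 1 / 100 : ℝ) ≤ f := by
      have : (q : ℝ) ≤ f := by exact_mod_cast hqf'
      linarith
    have h6 : (T : ℝ) ^ (8 - 1 / 50 : ℝ) ≤ (f : ℝ) ^ 2 := by
      calc (T : ℝ) ^ (8 - 1 / 50 : ℝ) = ((T : ℝ) ^ (4 - 1 / 100 : ℝ)) ^ 2 := by
            rw [← Real.rpow_natCast, ← Real.rpow_mul hT0.le]; norm_num
        _ ≤ (f : ℝ) ^ 2 := by gcongr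
    have h7 : (d : ℝ) * (f : ℝ) ^ 2 ≤ A * (T : ℝ) ^ 12 := by
      rw [hE] at hle
      exact_mod_cast hle
    have h8 : (d : ℝ) * (T : ℝ) ^ (8 - 1 / 50 : ℝ) ≤ A * (T : ℝ) ^ (4 + 1 / 50 : ℝ) * (T : ℝ) ^ (8 - 1 / 50 : ℝ) := by
      calc (d : ℝ) * (T : ℝ) ^ (8 - 1 / 50 : ℝ) ≤ (d : ℝ) * (f : ℝ) ^ 2 := by gcongr
        _ ≤ A * (T : ℝ) ^ 12 := h7
        _ = A * (T : ℝ) ^ (4 + 1 / 50 : ℝ) * (T : ℝ) ^ (8 - 1 / 50 : ℝ) := by
            rw [mul_assoc, ← Real.rpow_add hT0]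
            norm_num
    exact le_of_mul_le_mul_right h8 (by positivity)

end Pool.Agent.H82.C3
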