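import Pool.Agent.H82.C3.Csa1

set_option autoImplicit false

/-! # C3, part CSA, 2: assembly -/

namespace Pool.Agent.H82.C3

open Finset Filter
open scoped Classical

/-- the vertex of a datum -/
def vt (W T : ℕ) (z : ℕ × ℕ × ℕ × ℕ) : ℤ × ℤ := (mD W T z, nD W T z)

def AA (W : ℕ) : ℕ := 20 * (200 * W) ^ 12

lemma dat_card (T : ℕ) : (dat T).card = T ^ 8 := by
  simp only [dat, card_product, card_range]
  ring

lemma box_vtx (hBOX : S_BOX) {W T : ℕ} (hW : 1 ≤ W) (hT : 1 ≤ T) {z : ℕ × ℕ × ℕ × ℕ}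
    (hz : z ∈ dat T) : Vtx (AA W) T (vt W T z) ∧ 0 < DV W T z ∧
      DV W T z ≤ (AA W : ℤ) * (T : ℤ) ^ 12 := by
  obtain ⟨-, ⟨h1, h2⟩, -, ⟨h3, h4⟩, ⟨h5, h6⟩, -⟩ := hBOX W T hW hT z hz _ rfl
  have hW' : (1 : ℤ) ≤ W := by exact_mod_cast hW
  have hT' : (1 : ℤ) ≤ T := by exact_mod_cast hT
  have hw : (1 : ℤ) ≤ 200 * W := by linarith
  have hu : (1 : ℤ) ≤ 200 * W * T := by nlinarith
  have e4 : (200 * (W : ℤ) * T) ^ 4 ≤ (200 * (W : ℤ)) ^ 12 * (T : ℤ) ^ 4 := by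
    rw [mul_pow (200 * (W : ℤ)) (T : ℤ) 4]
    gcongr
    norm_num
  have e6 : (200 * (W : ℤ) * T) ^ 6 ≤ (200 * (W : ℤ)) ^ 12 * (T : ℤ) ^ 6 := by
    rw [mul_pow (200 * (W : ℤ)) (T : ℤ) 6]
    gcongr
    norm_num
  have u4 : (1 : ℤ) ≤ (200 * (W : ℤ) * T) ^ 4 := one_le_pow₀ hu
  have u6 : (1 : ℤ) ≤ (200 * (W : ℤ) * T) ^ 6 := one_le_pow₀ hu
  have u12 : (1 : ℤ) ≤ (200 * (W : ℤ) * T) ^ 12 := one_le_pow₀ hu
  have hA : (AA W : ℤ) = 20 * (200 * (W : ℤ)) ^ 12 := by unfold AA; push_cast; ring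
  refine ⟨⟨?_, ?_, ?_, ?_⟩, ?_, ?_⟩
  · change 1 ≤ mD W T z
    omega
  · change mD W T z ≤ _
    rw [hA]; linarith
  · change 1 ≤ nD W T z
    omega
  · change nD W T z ≤ _
    rw [hA]; linarith
  · linarith
  · rw [hA]
    calc DV W T z ≤ 20 * (200 * (W : ℤ) * T) ^ 12 := h6
      _ = _ := by ring

/-- many data with squarefree `D` -/
theorem many_good (hBOX : S_BOX) (hMOD : S_MOD) (hSV1 : S_SV1) (hBV1 : S_BV1) (hBV2 : S_BV2)
    (hBV3 : S_BV3) (hDEG : S_DEG) (W : ℕ) (hW1 : 1 ≤ W)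
    (hWp : ∀ q : ℕ, q.Prime → (q ∣ W ↔ 3 ≤ q ∧ q ≤ 1000)) :
    ∃ T₀ : ℕ, ∀ T : ℕ, T₀ ≤ T → ∃ G : Finset (ℕ × ℕ × ℕ × ℕ), G ⊆ dat T ∧
      (∀ z ∈ G, Squarefree (DV W T z).toNat) ∧ T ^ 8 ≤ 4 * G.card := by
  have hWodd : Odd W := by
    rw [← Nat.not_even_iff_odd, even_iff_two_dvd, hWp 2 Nat.prime_two]
    omega
  obtain ⟨Ts, hTs⟩ := hSV1 W hW1 hWp
  obtain ⟨C1, hC1, h1⟩ := hBV1 (AA W)
  obtain ⟨C2, hC2, h2⟩ := hBV2 (AA W)
  obtain ⟨C3, hC3, h3⟩ := hBV3 (AA W)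
  obtain ⟨Cd, hCd, hd⟩ := hDEG W hW1 (1 / 200) (by norm_num)
  have t1 : Tendsto (fun T : ℕ => (T : ℝ) ^ (1 / 200 : ℝ)) atTop atTop :=
    (tendsto_rpow_atTop (by norm_num)).comp tendsto_natCast_atTop_atTop
  have e1 := t1.eventually_ge_atTop (64 * ((C1 + C2 + C3) * Cd))
  obtain ⟨T0, hT0⟩ := eventually_atTop.1 (e1.and ((eventually_ge_atTop Ts).and (eventually_ge_atTop 1)))
  refine ⟨T0, fun T hT => ?_⟩
  obtain ⟨f1, f2, f3⟩ := hT0 T hT
  have hTr : (1 : ℝ) ≤ T := by exact_mod_cast f3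
  have hTp : (0 : ℝ) < T := by linarith
  have hB1 := hTs T f2
  set V := (dat T).image (vt W T) with hV
  have hVtx : ∀ v ∈ V, Vtx (AA W) T v := by
    intro v hv
    obtain ⟨z, hz, rfl⟩ := mem_image.1 hv
    exact (box_vtx hBOX hW1 f3 hz).1
  set V1 := V.filter (fun v => P1 T v) with hV1
  set V2 := V.filter (fun v => P2 T v) with hV2
  set V3 := V.filter (fun v => P3 (AA W) T v) with hV3
  have g1 : (V1.card : ℝ) ≤ C1 * (T : ℝ) ^ 7 := by
    apply h1 T f3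
    intro v hv
    rw [hV1, mem_filter] at hv
    exact ⟨hVtx v hv.1, hv.2⟩
  have g2 : (V2.card : ℝ) ≤ C2 * (T : ℝ) ^ (8 - 1 / 100 : ℝ) := by
    apply h2 T f3
    intro v hv
    rw [hV2, mem_filter] at hv
    exact ⟨hVtx v hv.1, hv.2⟩
  have g3 : (V3.card : ℝ) ≤ C3 * (T : ℝ) ^ (8 - 1 / 20 : ℝ) := by
    apply h3 T f3
    intro v hv
    rw [hV3, mem_filter] at hv
    exact ⟨hVtx v hv.1, hv.2.1, hv.2.2⟩
  set V' := V1 ∪ V2 ∪ V3 with hV'
  have g4 : (V'.card : ℝ) ≤ (C1 + C2 + C3) * (T : ℝ) ^ (8 - 1 / 100 : ℝ) := by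
    have a1 : V'.card ≤ V1.card + V2.card + V3.card :=
      (card_union_le _ _).trans (Nat.add_le_add_right (card_union_le _ _) _)
    have a2 : (V'.card : ℝ) ≤ V1.card + V2.card + V3.card := by exact_mod_cast a1
    have a3 : (T : ℝ) ^ 7 ≤ (T : ℝ) ^ (8 - 1 / 100 : ℝ) := by
      rw [← Real.rpow_natCast]
      apply Real.rpow_le_rpow_of_exponent_le hTr
      norm_num
    have a4 : (T : ℝ) ^ (8 - 1 / 20 : ℝ) ≤ (T : ℝ) ^ (8 - 1 / 100 : ℝ) :=
      Real.rpow_le_rpow_of_exponent_le hTr (by norm_num)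
    nlinarith [mul_le_mul_of_nonneg_left a3 hC1.le, mul_le_mul_of_nonneg_left a4 hC3.le]
  set B2 := (dat T).filter (fun z => vt W T z ∈ V') with hB2
  set P := ((dat T ×ˢ dat T).filter (fun z => mD W T z.1 = mD W T z.2 ∧ nD W T z.1 = nD W T z.2)).card with hP
  have g5 : B2.card ^ 2 ≤ V'.card * P := by
    apply cs_card B2 (vt W T) V'
    · intro z hz
      rw [hB2, mem_filter] at hz
      exact hz.2
    · intro Q hQ
      apply card_le_card
      intro z hz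
      obtain ⟨q1, q2, q3⟩ := hQ z hz
      rw [hB2, mem_filter] at q1 q2
      rw [mem_filter, mem_product]
      unfold vt at q3
      rw [Prod.mk.injEq] at q3
      exact ⟨⟨q1.1, q2.1⟩, q3⟩
  have g6 : (P : ℝ) ≤ Cd * (T : ℝ) ^ (8 + 1 / 200 : ℝ) := hd T f3
  have g7 : 8 * B2.card ≤ T ^ 8 := by
    have a1 : (B2.card : ℝ) ^ 2 ≤ V'.card * P := by exact_mod_cast g5
    have a2 : (V'.card : ℝ) * P ≤ ((C1 + C2 + C3) * (T : ℝ) ^ (8 - 1 / 100 : ℝ)) *
        (Cd * (T : ℝ) ^ (8 + 1 / 200 : ℝ)) := by gcongr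
    have a3 : (T : ℝ) ^ (8 - 1 / 100 : ℝ) * (T : ℝ) ^ (8 + 1 / 200 : ℝ) * (T : ℝ) ^ (1 / 200 : ℝ) =
        (T : ℝ) ^ 16 := by
      rw [← Real.rpow_add hTp, ← Real.rpow_add hTp, ← Real.rpow_natCast]
      norm_num
    have a4 : (8 * (B2.card : ℝ)) ^ 2 ≤ ((T : ℝ) ^ 8) ^ 2 := by
      calc (8 * (B2.card : ℝ)) ^ 2 = 64 * (B2.card : ℝ) ^ 2 := by ring
        _ ≤ 64 * (((C1 + C2 + C3) * (T : ℝ) ^ (8 - 1 / 100 : ℝ)) *
            (Cd * (T : ℝ) ^ (8 + 1 / 200 : ℝ))) := by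
              have := a1.trans a2
              linarith
        _ = ((T : ℝ) ^ (8 - 1 / 100 : ℝ) * (T : ℝ) ^ (8 + 1 / 200 : ℝ)) *
            (64 * ((C1 + C2 + C3) * Cd)) := by ring
        _ ≤ ((T : ℝ) ^ (8 - 1 / 100 : ℝ) * (T : ℝ) ^ (8 + 1 / 200 : ℝ)) * (T : ℝ) ^ (1 / 200 : ℝ) := by
              gcongr
        _ = ((T : ℝ) ^ 8) ^ 2 := by rw [a3]; ring
    have a5 : 8 * (B2.card : ℝ) ≤ (T : ℝ) ^ 8 := by
      exact (pow_le_pow_iff_left₀ (by positivity) (by positivity) (by norm_num)).1 a4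
    exact_mod_cast a5
  set B := (dat T).filter (fun z => ∃ q : ℕ, q.Prime ∧ 1000 < q ∧ 1000 * q ≤ T ^ 3 ∧
      (q : ℤ) ^ 2 ∣ DV W T z) with hB
  have hB' : 2 * B.card ≤ T ^ 8 := by
    refine le_trans (le_of_eq ?_) hB1
    congr 1
  refine ⟨(dat T).filter (fun z => z ∉ B ∧ z ∉ B2), filter_subset _ _, ?_, ?_⟩
  · intro z hz
    rw [mem_filter] at hz
    obtain ⟨hz1, hz2, hz3⟩ := hz
    obtain ⟨-, b2, b3⟩ := box_vtx hBOX hW1 f3 hz1
    obtain ⟨m1, m2⟩ := hMOD W T hWodd z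
    have hn : vt W T z ∉ V' := by
      intro h
      exact hz3 (by rw [hB2, mem_filter]; exact ⟨hz1, h⟩)
    have hvV : vt W T z ∈ V := mem_image_of_mem _ hz1
    rw [hV', mem_union, mem_union, hV1, hV2, hV3, mem_filter, mem_filter, mem_filter] at hn
    have := sqfree_of (W := W) (T := T) (A := AA W) (v := vt W T z) f3 m1 m2 hWp b2 b3 ?_ ?_ ?_ ?_
    · exact this
    · intro h
      apply hz2
      rw [hB, mem_filter]
      exact ⟨hz1, h⟩
    · exact fun h => hn (Or.inl (Or.inl ⟨hvV, h⟩))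
    · exact fun h => hn (Or.inl (Or.inr ⟨hvV, h⟩))
    · exact fun h => hn (Or.inr ⟨hvV, h⟩)
  · set G := (dat T).filter (fun z => z ∉ B ∧ z ∉ B2) with hG
    have a1 : dat T ⊆ G ∪ (B ∪ B2) := by
      intro z hz
      rw [mem_union, mem_union]
      by_cases c1 : z ∈ B
      · exact Or.inr (Or.inl c1)
      by_cases c2 : z ∈ B2
      · exact Or.inr (Or.inr c2)
      left
      rw [hG, mem_filter]
      exact ⟨hz, c1, c2⟩
    have a2 : T ^ 8 ≤ G.card + (B.card + B2.card) := by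
      rw [← dat_card T]
      exact (card_le_card a1).trans ((card_union_le _ _).trans
        (Nat.add_le_add_left (card_union_le _ _) _))
    omega

theorem t_CSA (hBOX : S_BOX) (hMOD : S_MOD) (hSV1 : S_SV1) (hBV1 : S_BV1) (hBV2 : S_BV2)
    (hBV3 : S_BV3) (hDEG : S_DEG) (hPAIR : S_PAIR) : S_CSA := by
  intro W hW1 hWp ε hε
  have hWodd : Odd W := by
    rw [← Nat.not_even_iff_odd, even_iff_two_dvd, hWp 2 Nat.prime_two]
    omega
  obtain ⟨Tg, hTg⟩ := many_good hBOX hMOD hSV1 hBV1 hBV2 hBV3 hDEG W hW1 hWp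
  obtain ⟨Cd, hCd, hd⟩ := hDEG W hW1 (ε / 4) (by positivity)
  obtain ⟨Cp, hCp, hp⟩ := hPAIR (AA W) (ε / 4) (by positivity)
  have t1 : Tendsto (fun T : ℕ => (T : ℝ) ^ (ε / 4 : ℝ)) atTop atTop :=
    (tendsto_rpow_atTop (by positivity)).comp tendsto_natCast_atTop_atTop
  have e1 := t1.eventually_ge_atTop (256 * Cd ^ 2 * (Cp + 1))
  obtain ⟨T0, hT0⟩ := eventually_atTop.1 (e1.and ((eventually_ge_atTop Tg).and (eventually_ge_atTop 1)))
  refine ⟨T0, fun T hT => ?_⟩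
  obtain ⟨f1, f2, f3⟩ := hT0 T hT
  have hTr : (1 : ℝ) ≤ T := by exact_mod_cast f3
  have hTp : (0 : ℝ) < T := by linarith
  obtain ⟨G, hG1, hG2, hG3⟩ := hTg T f2
  set V := G.image (vt W T) with hV
  set S := V.image (fun v => (DD v.1 v.2).toNat) with hS
  refine ⟨S, ?_, ?_⟩
  · intro D hD
    obtain ⟨v, hv, rfl⟩ := mem_image.1 hD
    obtain ⟨z, hz, rfl⟩ := mem_image.1 hv
    have hzd := hG1 hz
    have hsq := hG2 z hz
    obtain ⟨⟨p1, p2⟩, ⟨h1, h2⟩, ⟨t1, t2⟩, ⟨h3, h4⟩, ⟨h5, h6⟩, -⟩ := hBOX W T hW1 f3 z hzd _ rfl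
    obtain ⟨m1, m2⟩ := hMOD W T hWodd z
    have hW' : (1 : ℤ) ≤ W := by exact_mod_cast hW1
    have hT' : (1 : ℤ) ≤ T := by exact_mod_cast f3
    have hu : (200 : ℤ) ≤ 200 * W * T := by nlinarith
    set u : ℤ := 200 * W * T with hu'
    have u4 : (200 : ℤ) ≤ u ^ 4 := by
      calc (200 : ℤ) ≤ u ^ 1 := by linarith
        _ ≤ u ^ 4 := pow_le_pow_right₀ (by linarith) (by norm_num)
    have u6 : (200 : ℤ) ≤ u ^ 6 := by
      calc (200 : ℤ) ≤ u ^ 1 := by linarith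
        _ ≤ u ^ 6 := pow_le_pow_right₀ (by linarith) (by norm_num)
    have u12 : (200 : ℤ) ≤ u ^ 12 := by
      calc (200 : ℤ) ≤ u ^ 1 := by linarith
        _ ≤ u ^ 12 := pow_le_pow_right₀ (by linarith) (by norm_num)
    have hDV0 : 0 < DV W T z := by linarith
    have hcast : ((DV W T z).toNat : ℤ) = DV W T z := Int.toNat_of_nonneg hDV0.le
    have hcast' : ((DD (vt W T z).1 (vt W T z).2).toNat : ℤ) = DV W T z := hcast
    have hp0 : 0 < pD W T z := by nlinarith [sq_nonneg u]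
    change Squarefree (DV W T z).toNat ∧ (DV W T z).toNat % 4 = 3 ∧ (DV W T z).toNat ≤ _ ∧ _
    have key : 4 * (mD W T z + tD W T z) ^ 3 =
        (nD W T z + 2 * (tD W T z * pD W T z)) ^ 2 + DV W T z := by
      simp only [DV, DD, mD, nD, tD, pD, nn, mm, tt, pp]
      ring
    have key1 : 4 * (mD W T z) ^ 3 = (nD W T z) ^ 2 + DV W T z := by
      simp only [DV, DD]
      ring
    have hm2 : 4 * (mD W T z + tD W T z) ^ 2 < DV W T z := by
      have a1 : 10 * (mD W T z + tD W T z) ≤ 22 * u ^ 4 := by linarith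
      have a2 : 0 ≤ mD W T z + tD W T z := by linarith
      have a3 : (10 * (mD W T z + tD W T z)) ^ 2 ≤ (22 * u ^ 4) ^ 2 := by gcongr
      have a4 : 200 * u ^ 8 ≤ u ^ 12 := by
        calc 200 * u ^ 8 ≤ u ^ 4 * u ^ 8 := by gcongr
          _ = u ^ 12 := by ring
      have a5 : (22 * u ^ 4) ^ 2 = 484 * u ^ 8 := by ring
      have a6 : 0 < u ^ 8 := by positivity
      nlinarith
    refine ⟨hsq, ?_, ?_, (mD W T z).toNat, (nD W T z).toNat, (mD W T z + tD W T z).toNat,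
      (nD W T z + 2 * (tD W T z * pD W T z)).toNat, ?_, ?_, ?_, ?_, ?_⟩
    · omega
    · zify
      rw [hcast]
      exact h6
    · omega
    · omega
    · zify
      rw [hcast', Int.toNat_of_nonneg (by linarith)]
      exact hm2
    · zify
      rw [hcast', Int.toNat_of_nonneg (by linarith), Int.toNat_of_nonneg (by linarith)]
      exact key1
    · zify
      have a1 : 0 < tD W T z * pD W T z := mul_pos t1 hp0
      rw [hcast', Int.toNat_of_nonneg (by linarith), Int.toNat_of_nonneg (by linarith)]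
      exact key
  · set P := ((dat T ×ˢ dat T).filter (fun z => mD W T z.1 = mD W T z.2 ∧ nD W T z.1 = nD W T z.2)).card with hP
    have g5 : G.card ^ 2 ≤ V.card * P := by
      apply cs_card G (vt W T) V
      · intro z hz
        exact mem_image_of_mem _ hz
      · intro Q hQ
        apply card_le_card
        intro z hz
        obtain ⟨q1, q2, q3⟩ := hQ z hz
        rw [mem_filter, mem_product]
        unfold vt at q3
        rw [Prod.mk.injEq] at q3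
        exact ⟨⟨hG1 q1, hG1 q2⟩, q3⟩
    have hVt : ∀ v ∈ V, Vtx (AA W) T v ∧ 0 < DD v.1 v.2 := by
      intro v hv
      obtain ⟨z, hz, rfl⟩ := mem_image.1 hv
      obtain ⟨b1, b2, b3⟩ := box_vtx hBOX hW1 f3 (hG1 hz)
      exact ⟨b1, b2⟩
    set P' := ((V ×ˢ V).filter (fun z => DD z.1.1 z.1.2 = DD z.2.1 z.2.2)).card with hP'
    have g8 : V.card ^ 2 ≤ S.card * P' := by
      apply cs_card V (fun v => (DD v.1 v.2).toNat) S
      · intro z hz
        exact mem_image_of_mem _ hz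
      · intro Q hQ
        apply card_le_card
        intro z hz
        obtain ⟨q1, q2, q3⟩ := hQ z hz
        rw [mem_filter, mem_product]
        refine ⟨⟨q1, q2⟩, ?_⟩
        have := (hVt _ q1).2
        have := (hVt _ q2).2
        omega
    have g6 : (P : ℝ) ≤ Cd * (T : ℝ) ^ (8 + ε / 4 : ℝ) := hd T f3
    have g7 : (P' : ℝ) ≤ Cp * (T : ℝ) ^ (8 + ε / 4 : ℝ) + V.card :=
      hp T f3 V (fun v hv => (hVt v hv).1)
    set a : ℝ := (T : ℝ) ^ (ε / 4) with ha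
    have ha1 : 1 ≤ a := Real.one_le_rpow hTr (by positivity)
    set t : ℝ := (T : ℝ) ^ 8 with ht
    have ht0 : 0 < t := by positivity
    have hta : (T : ℝ) ^ (8 + ε / 4 : ℝ) = t * a := by
      rw [Real.rpow_add hTp, ht, ← ha]
      congr 1
      exact_mod_cast Real.rpow_natCast (T : ℝ) 8
    rw [hta] at g6 g7
    have hV8 : (V.card : ℝ) ≤ t * a := by
      have b1 : V.card ≤ T ^ 8 := by
        calc V.card ≤ G.card := card_image_le
          _ ≤ (dat T).card := card_le_card hG1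
          _ = T ^ 8 := dat_card T
      have b2 : (V.card : ℝ) ≤ t := by rw [ht]; exact_mod_cast b1
      nlinarith
    have r1 : t ≤ 4 * G.card := by rw [ht]; exact_mod_cast hG3
    have r2 : (G.card : ℝ) ^ 2 ≤ V.card * P := by exact_mod_cast g5
    have r3 : (V.card : ℝ) ^ 2 ≤ S.card * P' := by exact_mod_cast g8
    have r4 : t ≤ 16 * Cd * a * V.card := by
      have : t * t ≤ (16 * Cd * a * V.card) * t := by
        calc t * t = t ^ 2 := by ring
          _ ≤ (4 * G.card) ^ 2 := by gcongr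
          _ = 16 * (G.card : ℝ) ^ 2 := by ring
          _ ≤ 16 * (V.card * P) := by linarith
          _ ≤ 16 * (V.card * (Cd * (t * a))) := by gcongr
          _ = (16 * Cd * a * V.card) * t := by ring
      exact le_of_mul_le_mul_right this ht0
    have r5 : (P' : ℝ) ≤ (Cp + 1) * (t * a) := by linarith
    have r6 : t ≤ a ^ 4 * S.card := by
      have : t * t ≤ (a ^ 4 * S.card) * t := by
        calc t * t = t ^ 2 := by ring
          _ ≤ (16 * Cd * a * V.card) ^ 2 := by gcongr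
          _ = 256 * Cd ^ 2 * a ^ 2 * (V.card : ℝ) ^ 2 := by ring
          _ ≤ 256 * Cd ^ 2 * a ^ 2 * (S.card * P') := by gcongr
          _ ≤ 256 * Cd ^ 2 * a ^ 2 * (S.card * ((Cp + 1) * (t * a))) := by gcongr
          _ = (256 * Cd ^ 2 * (Cp + 1)) * (a ^ 3 * S.card * t) := by ring
          _ ≤ a * (a ^ 3 * S.card * t) := by gcongr
          _ = (a ^ 4 * S.card) * t := by ring
      exact le_of_mul_le_mul_right this ht0
    have r7 : (T : ℝ) ^ (8 - ε) = t / a ^ 4 := by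
      rw [Real.rpow_sub hTp, ha, ← Real.rpow_natCast ((T : ℝ) ^ (ε / 4)), ← Real.rpow_mul hTp.le, ht,
        ← Real.rpow_natCast]
      congr 2
      push_cast; ring
    rw [r7, div_le_iff₀ (by positivity)]
    linarith

end Pool.Agent.H82.C3
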