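import Pool.Agent.H82.C3.Alg
import Pool.Agent.H82.CR.G1
import Pool.Graph.R_pool_sql_team_seeded_1acbe0a2.Y587.CT.FLD
import Pool.Graph.R_pool_sql_team_seeded_1acbe0a2.Y215.CT.Fin

set_option autoImplicit false

/-! # C3, part FIN: at least `X ^ (2/3 - ε)` fields -/

namespace Pool.Agent.H82.C3

open NumberField Finset Filter
open Pool.Agent.Y215.CT (ImQuad finite_imQuad)
open scoped Classical

/-- the numbers `D` produced by the sieve -/
def Good (D : ℕ) : Prop :=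
  Squarefree D ∧ D % 4 = 3 ∧ ∃ m₁ n₁ m₂ n₂ : ℕ, 1 < m₁ ∧ m₁ < m₂ ∧ 4 * m₂ ^ 2 < D ∧
    4 * m₁ ^ 3 = n₁ ^ 2 + D ∧ 4 * m₂ ^ 3 = n₂ ^ 2 + D

lemma exists_W : ∃ W : ℕ, 1 ≤ W ∧ ∀ q : ℕ, q.Prime → (q ∣ W ↔ 3 ≤ q ∧ q ≤ 1000) := by
  refine ⟨∏ q ∈ (Finset.range 1001).filter (fun q => q.Prime ∧ 3 ≤ q), q, ?_, ?_⟩
  · have : 0 < ∏ q ∈ (Finset.range 1001).filter (fun q => q.Prime ∧ 3 ≤ q), q := by
      apply Finset.prod_pos
      intro q hq
      rw [Finset.mem_filter] at hq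
      exact hq.2.1.pos
    exact this
  · intro q hq
    constructor
    · intro h
      obtain ⟨r, hr, hqr⟩ := (hq.prime.dvd_finsetProd_iff _).1 h
      rw [Finset.mem_filter, Finset.mem_range] at hr
      have : q = r := (Nat.prime_dvd_prime_iff_eq hq hr.2.1).1 hqr
      subst this
      omega
    · rintro ⟨h1, h2⟩
      apply Finset.dvd_prod_of_mem
      rw [Finset.mem_filter, Finset.mem_range]
      exact ⟨by omega, hq, h1⟩

theorem many_X (hC : S_CSA) (ε : ℝ) (hε : 0 < ε) : ∃ X0 : ℝ, ∀ X : ℝ, X0 ≤ X →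
    ∃ S : Finset ℕ, (∀ D ∈ S, Good D ∧ (D : ℝ) ≤ X) ∧ X ^ (2 / 3 - ε) ≤ S.card := by
  obtain ⟨W, hW1, hW⟩ := exists_W
  set η : ℝ := min ε 1 with hη
  have hη0 : 0 < η := lt_min hε one_pos
  have hη1 : η ≤ 1 := min_le_right _ _
  have hη2 : η ≤ ε := min_le_left _ _
  obtain ⟨T0, hT0⟩ := hC W hW1 hW η hη0
  set C0 : ℝ := 20 * (200 * (W : ℝ)) ^ 12 with hC0
  have hC0p : 0 < C0 := by
    have : (0 : ℝ) < W := by exact_mod_cast hW1
    positivity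
  set K0 : ℝ := C0 ^ ((8 - η) / 12) * 2 ^ (8 - η) with hK0
  have hK0p : 0 < K0 := by positivity
  have t1 : Tendsto (fun X : ℝ => (X / C0) ^ (1 / 12 : ℝ)) atTop atTop :=
    (tendsto_rpow_atTop (by norm_num)).comp (tendsto_id.atTop_div_const hC0p)
  have e1 := t1.eventually_ge_atTop (max (T0 + 1 : ℝ) 2)
  have e2 : ∀ᶠ X : ℝ in atTop, K0 ≤ X ^ (ε - η / 12) :=
    (tendsto_rpow_atTop (by linarith)).eventually_ge_atTop _
  obtain ⟨X0, hX0⟩ := eventually_atTop.1 (e1.and (e2.and (eventually_ge_atTop 1)))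
  refine ⟨X0, fun X hX => ?_⟩
  obtain ⟨f1, f2, f3⟩ := hX0 X hX
  have hXpos : 0 < X := by linarith
  set y := (X / C0) ^ (1 / 12 : ℝ) with hy
  have hy0 : 0 < y := by positivity
  have hy12 : y ^ 12 = X / C0 := by
    rw [hy, ← Real.rpow_natCast, ← Real.rpow_mul (by positivity)]
    norm_num
  set T := ⌊y⌋₊ with hT
  have hT1 : (T : ℝ) ≤ y := Nat.floor_le hy0.le
  have hT2 : y < T + 1 := Nat.lt_floor_add_one y
  have hy2 : 2 ≤ y := (le_max_right _ _).trans f1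
  have hTy : y / 2 ≤ T := by linarith
  have hTT : T0 ≤ T := by
    have h1 : (T0 : ℝ) + 1 ≤ y := (le_max_left _ _).trans f1
    have h2 : (T0 : ℝ) < T + 1 := by linarith
    have h3 : T0 < T + 1 := by exact_mod_cast h2
    omega
  obtain ⟨S, hS1, hS2⟩ := hT0 T hTT
  refine ⟨S, ?_, ?_⟩
  · intro D hD
    obtain ⟨a1, a2, a3, a4⟩ := hS1 D hD
    refine ⟨⟨a1, a2, a4⟩, ?_⟩
    calc (D : ℝ) ≤ 20 * (200 * W * T) ^ 12 := by exact_mod_cast a3
      _ = C0 * (T : ℝ) ^ 12 := by rw [hC0]; ring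
      _ ≤ C0 * y ^ 12 := by gcongr
      _ = X := by rw [hy12]; field_simp
  · refine le_trans ?_ hS2
    have h1 : (y / 2) ^ (8 - η) ≤ (T : ℝ) ^ (8 - η) :=
      Real.rpow_le_rpow (by positivity) hTy (by linarith)
    refine le_trans ?_ h1
    have h2 : y ^ (8 - η) = X ^ ((8 - η) / 12) / C0 ^ ((8 - η) / 12) := by
      rw [hy, ← Real.rpow_mul (by positivity), Real.div_rpow hXpos.le hC0p.le]
      congr 1 <;> congr 1 <;> ring
    rw [Real.div_rpow hy0.le (by norm_num), h2, div_div, ← hK0, le_div_iff₀ hK0p]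
    calc X ^ (2 / 3 - ε) * K0 ≤ X ^ (2 / 3 - ε) * X ^ (ε - η / 12) := by gcongr
      _ = X ^ ((8 - η) / 12) := by
        rw [← Real.rpow_add hXpos]
        congr 1; ring

/-- surjections of the `3`-part of the class group onto `(ℤ/3)²` -/
abbrev Sur3 (K : IntermediateField ℚ ℂ) : Type :=
  {φ : (Subgroup.closure {x : ClassGroup (𝓞 K) | ∃ n : ℕ, x ^ 3 ^ n = 1}) →*
    Multiplicative (ZMod 3 × ZMod 3) // Function.Surjective φ}

theorem field_of_good {D : ℕ} (h : Good D) (K : IntermediateField ℚ ℂ) (i : NumberField K)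
    (h2 : Module.finrank ℚ K = 2) (hdisc : discr K = -(D : ℤ)) : Nonempty (Sur3 K) := by
  obtain ⟨a1, a2, m₁, n₁, m₂, n₂, b1, b2, b3, b4, b5⟩ := h
  obtain ⟨a, b, c1, c2, c3, c4, c5, c6⟩ := t_ALG K D m₁ n₁ m₂ n₂ h2 a1 a2 hdisc b1 b2 b3 b4 b5
  have : Finite (ClassGroup (𝓞 K)) := inferInstance
  obtain ⟨φ, hφ⟩ := Pool.Agent.H82.CR.exists_surj_part (ClassGroup (𝓞 K)) a b c1 c2 c3 c4 c5 c6
  exact ⟨φ, hφ⟩

theorem main (hC : S_CSA) (ε : ℝ) (hε : 0 < ε) : ∃ X0 : ℝ, ∀ X : ℝ, X0 ≤ X →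
    X ^ (2 / 3 - ε) ≤ ({K | K ∈ ImQuad X ∧ Nonempty (Sur3 K)}.ncard : ℝ) := by
  obtain ⟨K, hK⟩ := Pool.Agent.Y215.CT.fields Pool.Agent.Y587.CT.t_FLD
  obtain ⟨X0, hX0⟩ := many_X hC ε hε
  refine ⟨X0, fun X hX => ?_⟩
  obtain ⟨D, hD1, hD2⟩ := hX0 X hX
  refine hD2.trans ?_
  have hfin : {L | L ∈ ImQuad X ∧ Nonempty (Sur3 L)}.Finite :=
    (finite_imQuad X).subset (fun L hL => hL.1)
  have hmem : ∀ d ∈ D, K d ∈ {L | L ∈ ImQuad X ∧ Nonempty (Sur3 L)} := by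
    intro d hd
    obtain ⟨h1, h2⟩ := hD1 d hd
    obtain ⟨i, b1, b2, b3, -⟩ := hK _ h1.1 h1.2.1
    refine ⟨⟨i, b1, b3, ?_⟩, field_of_good h1 _ i b1 b2⟩
    rw [b2]
    push_cast
    rw [abs_neg, Nat.abs_cast]
    exact h2
  have hinj : Set.InjOn K D := by
    intro d hd d' hd' he
    obtain ⟨h1, h2⟩ := hD1 d hd
    obtain ⟨i, b1, b2, b3, -⟩ := hK _ h1.1 h1.2.1
    obtain ⟨h1', h2'⟩ := hD1 d' hd'
    obtain ⟨i', b1', b2', b3', -⟩ := hK _ h1'.1 h1'.2.1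
    have key : ∀ L L' : IntermediateField ℚ ℂ, L = L' → ∀ (i : NumberField L) (i' : NumberField L'),
        @discr L _ i = @discr L' _ i' := by
      rintro L L' rfl i i'
      rfl
    have := key _ _ he i i'
    rw [b2, b2'] at this
    omega
  have h1 : (D.image K).card ≤ {L | L ∈ ImQuad X ∧ Nonempty (Sur3 L)}.ncard := by
    rw [Set.ncard_eq_toFinset_card _ hfin]
    apply card_le_card
    intro L hL
    obtain ⟨d, hd, rfl⟩ := mem_image.1 hL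
    exact hfin.mem_toFinset.2 (hmem d hd)
  rw [card_image_of_injOn hinj] at h1
  exact_mod_cast h1

end Pool.Agent.H82.C3
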