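import Pool.Agent.H82.C3.Fin
import Pool.Agent.H82.C3.Csa2
import Pool.Agent.H33.C3.Exc
import Pool.Agent.H33.C3.Lin
import Pool.Agent.H37.C3.Bv3
import Pool.Agent.H4.C3.R3
import Pool.Agent.H4.C3.SV1
import Pool.Agent.H44.C3.Box
import Pool.Agent.H44.C3.Pair
import Pool.Agent.H59.C3.DEG
import Pool.Agent.H59.C3.SNG
import Pool.Agent.H62.C3.Cgb
import Pool.Agent.H69.C3.Cga
import Pool.Agent.H69.C3.Rep
import Pool.Agent.H78.C3.Bv2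
import Pool.Agent.H87.C3.CGC
import Pool.Agent.H87.C3.CGD

set_option autoImplicit false

/-! # C3: the complete theorem -/

namespace Pool.Agent.H82.C3

open Pool.Agent.Y215.CT (ImQuad)

theorem csa : S_CSA := by
  have hBOX : S_BOX := Pool.Agent.H44.C3.t_BOX
  have hREP : S_REP := Pool.Agent.H69.C3.t_REP
  have hSNG : S_SNG := Pool.Agent.H59.C3.t_SNG
  have hLIN : S_LIN := Pool.Agent.H33.C3.t_LIN hSNG
  have hSV1 : S_SV1 := Pool.Agent.H4.C3.t_SV1 hLIN Pool.Agent.H33.C3.t_LIX Pool.Agent.H33.C3.t_EXC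
  have hCGA : S_CGA := Pool.Agent.H69.C3.t_CGA
  have hCGB : S_CGB := Pool.Agent.H62.C3.t_CGB hCGA
  have hCGC : S_CGC := Pool.Agent.H87.C3.t_CGC hCGA
  have hCGD : S_CGD := Pool.Agent.H87.C3.t_CGD hCGB hCGC
  have hBV3 : S_BV3 := Pool.Agent.H37.C3.t_BV3 hREP hCGD Pool.Agent.H4.C3.t_R3
  exact t_CSA hBOX Pool.Agent.H33.C3.t_MOD hSV1 Pool.Agent.H44.C3.t_BV1 Pool.Agent.H78.C3.t_BV2 hBV3
    (Pool.Agent.H59.C3.t_DEG hREP hBOX) Pool.Agent.H44.C3.t_PAIR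

theorem main_final (ε : ℝ) (hε : 0 < ε) : ∃ X0 : ℝ, ∀ X : ℝ, X0 ≤ X →
    X ^ (2 / 3 - ε) ≤ ({K | K ∈ ImQuad X ∧ Nonempty (Sur3 K)}.ncard : ℝ) :=
  main csa ε hε

end Pool.Agent.H82.C3
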